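import Pool.Agent.Q45.HF.Nag2

/-!
# The analytic generalized Nagao conjecture for the fibre powers of nets of hyperelliptic curves

Let `k` be a number field, `O` a finitely generated `𝓞_k`-algebra, `V = Spec O`, and
`f ∈ O[u][X]` a monic polynomial of degree `2 g + 1 ≥ 3` in `X`, where `u = (u_t : t ∈ τ)` are
variables. We consider the curves `Y² = F(X)`, `F = f + h_1 X + h_0`, where `h_0`, `h_1` are two
more variables (`fam f r`; for `O = 𝓞_k` and `f = X ^ (2g+1) + u_1 X ^ (2g-1) + ... + u_(2g-2) X ^ 2`
this is the universal curve of genus `g` with a rational Weierstrass point). The ring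

`FR f r = O[u, h_0, h_1, x_1, ..., x_r][y_1, ..., y_r] / (y_i² = F(x_i))`

is the coordinate ring of the `r`-th fibre power of the family of the affine curves; let `𝒴` be a
smooth projective model of its fraction field, of dimension `m = dim V_k + #τ + r + 2`. The generic
fibre `X` is the smooth projective curve `Y² = F(X)` of genus `g` over `K = k(𝒴)`, so the fibration is
the projection from the power `r + 1` to the power `r` of the family.

`averageAt` is the fibre average `𝔄_v`, over the points of the affine model with values in the residue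
field of `v` above which the fibre is smooth (the other points of a projective model change it by
`O(q_v^(-1/2))`, which does not affect the residue).

We prove Q1 for these fibrations, for all geometrically irreducible `V`: the only property of `V` that is
used is the estimate of Lang and Weil `#V(κ_v) = q_v ^ e + O(q_v ^ (e - 1/2))`. The group `J(K)`, the class
group of `K[X, Y] / (Y² - F)`, is free abelian of rank `r`, also with `O` replaced by any domain
of characteristic zero over it, for example over an algebraic closure of `k`; so the `K/k`-trace is zero.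
-/

set_option autoImplicit false

open Polynomial NumberField IsDedekindDomain

namespace Pool.Agent.Results.MP_3d3918_nt.HyperellipticFibrePowers

open Q45.HF Pool.Agent.TH943.HJ
open Pool.Agent.Y707.PR (HasResidue series)

/-- The abelian group `A` is free of finite rank `m`. -/
def FreeOfRank (A : Type) [AddCommGroup A] (m : ℕ) : Prop :=
  Module.Free ℤ A ∧ Module.Finite ℤ A ∧ Module.finrank ℤ A = m

/-- The ring `A` is a Dedekind domain and its class group is a free abelian group of finite rank `m`. -/
def ClassRank (A : Type) [CommRing A] (m : ℕ) : Prop :=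
  ∃ _ : IsDedekindDomain A, FreeOfRank (Additive (ClassGroup A)) m

/-- The class group of `K[X, Y] / (Y² - F)`, which is the group `J(K)`, is a free abelian group of finite
rank `m`. -/
def JacobianRank {K : Type} [Field K] (F : K[X]) (m : ℕ) : Prop := ClassRank (CR F) m

/-- The ring of the `r`-th fibre power is a domain, and over its field of fractions `K` the curve
`Y² = F(X)` is smooth and the group `J(K)` is free abelian of rank `r`. -/
def GenericRank {E τ : Type} [CommRing E] (f : (MvPolynomial τ E)[X]) (r : ℕ) : Prop :=
  IsDomain (FR f r) ∧ ∀ (K : Type) [Field K] [Algebra (FR f r) K] [IsFractionRing (FR f r) K],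
    Good f (algebraMap (FR f r) K) ∧ JacobianRank (fib f (algebraMap (FR f r) K)) r

/-- The analytic statements for the values `b_v` (which are minus the fibre averages): the residue at
`s = 1` is `r`, and `∑ b_v (log q_v) q_v^(-s) - r ∑ (log q_v) q_v^(-s)` is analytic for `Re s > 1/2`. -/
def Residues {k : Type} [Field k] [NumberField k] (b : HeightOneSpectrum (𝓞 k) → ℝ) (r : ℕ) : Prop :=
  ∀ R : Finset (HeightOneSpectrum (𝓞 k)), HasResidue R b 1 r ∧ ∃ G : ℂ → ℂ,
    (∀ s : ℂ, 1 / 2 < s.re → AnalyticAt ℂ G s) ∧
    ∀ s : ℂ, 1 < s.re → series R b s = r * series R (fun _ => 1) s + G s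

/-- **The analytic generalized Nagao conjecture for the fibre powers of the nets of hyperelliptic
curves.** Let `g ≥ 1` and `r ≥ 0`.
(1) There is a constant `C` such that for every commutative ring `O`, every monic `f` of degree
`2 g + 1` in `X` over `O[u]` and every point `ψ` of `Spec O` with values in a finite field with `q`
elements, `q` odd, the average of the traces over the points of the base above `ψ` is `-r` up to
`C q ^ (-1/2)`.
(2) If `O` is a finitely generated algebra over the ring of integers of a number field `k` which
satisfies the estimate of Lang and Weil, then `- Res_{s=1} ∑ 𝔄_v (log q_v) q_v^(-s) = r`.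
(3) The group `J(K)` is free abelian of rank `r`, for every domain `E` of characteristic zero in the
place of `O`.
(4) The estimate of Lang and Weil holds for `O = 𝓞_k` (the base is an affine space). -/
theorem result (g r : ℕ) (hg : 1 ≤ g) :
    (∃ C : ℝ, ∀ (O τ : Type) [CommRing O] [Fintype τ] (f : (MvPolynomial τ O)[X]), f.Monic →
      f.natDegree = 2 * g + 1 → ∀ (F : Type) [Field F] [Finite F], ringChar F ≠ 2 →
      ∀ ψ : O →+* F, |average f r ψ + r| ≤ C * (Nat.card F : ℝ) ^ (-(1 / 2) : ℝ)) ∧
    (∀ (k : Type) [Field k] [NumberField k] (O : Type) [CommRing O] (ι : 𝓞 k →+* O) (e : ℕ),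
      ι.FiniteType → LangWeil ι e → ∀ (τ : Type) [Fintype τ] (f : (MvPolynomial τ O)[X]), f.Monic →
      f.natDegree = 2 * g + 1 → Residues (fun v => -averageAt ι e f r v) r) ∧
    (∀ (E τ : Type) [CommRing E] [IsDomain E] [CharZero E] (f : (MvPolynomial τ E)[X]), f.Monic →
      f.natDegree = 2 * g + 1 → GenericRank f r) ∧
    (∀ (k : Type) [Field k] [NumberField k], LangWeil (RingHom.id (𝓞 k)) 0) := by
  refine ⟨?_, ?_, ?_, fun k _ _ => langWeil_self⟩
  · obtain ⟨C, hC, hb⟩ := average_bound (2 * g + 1) r
    exact ⟨C, fun O τ _ _ f hf hd F _ _ hF ψ => hb O τ f hf (by omega) (hd ▸ ⟨g, rfl⟩) hd F hF ψ⟩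
  · intro k _ _ O _ ι e hι hLW τ _ f hf hd R
    obtain ⟨K, hK, h⟩ := averageAt_bound (r := r) hι hLW hf (by omega) (hd ▸ ⟨g, rfl⟩)
    exact ⟨has_residue hK h R, half_plane hK h R⟩
  · intro E τ _ _ _ f hf hd
    refine ⟨FR_domain _ (by omega), fun K _ _ _ => ?_⟩
    obtain ⟨a1, a2, a3, a4, a5⟩ := rank_final (r := r) hf (by omega) (hd ▸ ⟨g, rfl⟩) K
    exact ⟨a1, a2, a3, a4, a5⟩

end Pool.Agent.Results.MP_3d3918_nt.HyperellipticFibrePowers
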