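import Pool.Agent.Q5.WS.An

/-!
# The analytic generalized Nagao conjecture: fields generated by radicals of integers decide

`𝒳 → 𝒴` is a fibration over a number field `K`, given over an open part of the base by equations, as in
`Pool.Agent.W353.FB.Defs`; `B` is the abelian variety of the question, and `V` is the space
`(P_X(K̄(𝒴)) / τ B(K̄)) ⊗ ℚ` with the action of the absolute Galois group of `K` (the theorem holds for every finite
dimensional representation `V`); the rank of `P_X(F(𝒴)) / τ B(F)` is the dimension of the space of the invariants
of the absolute Galois group of `F`.  `Nagao` over `F`: `-∑ 𝔄*_v (log q_v) q_v^{-s}` converges absolutely for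
`Re s > 1` and is `rank / (s - 1)` plus an analytic function near `s = 1`.
-/

set_option autoImplicit false

namespace Pool.Agent.Results.MP_3d3918_nt.RadicalTestFields

open Pool.Agent.Q5.WS.An

/-- Let `p` be a prime, `k` a number and `T` an infinite set of primes.  If the assertion holds for all `F/K` of degree
divisible by `p^k` generated by finitely many `p`-th roots of positive integers all of whose prime factors belong to
`T`, it holds for `K`. -/
theorem result : TestLaw :=
  test

end Pool.Agent.Results.MP_3d3918_nt.RadicalTestFields
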